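import Pool.Agent.Lib.ZS.Ht

/-!
# Consequences of height bounds
-/

set_option autoImplicit false

namespace Pool.Agent.ZS

open NumberField IsDedekindDomain Height

variable {L : Type} [Field L] [NumberField L]

theorem one_le_infprod (x : L) : 1 ≤ ∏ v : InfinitePlace L, max (v x) 1 ^ v.mult := by
  calc (1 : ℝ) = ∏ _v : InfinitePlace L, (1 : ℝ) := by rw [Finset.prod_const_one]
    _ ≤ _ := Finset.prod_le_prod (fun _ _ => zero_le_one) fun v _ =>
        one_le_pow₀ (le_max_right _ _)

/-- partial products of the finite places are bounded by the height -/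
theorem prod_le_ht (x : L) (B : Finset (HeightOneSpectrum (𝓞 L))) :
    ∏ w ∈ B, max (FinitePlace.mk w x) 1 ≤ mulHeight₁ x := by
  classical
  rw [NumberField.mulHeight₁_eq]
  have h1 := one_le_infprod x
  set s : Finset (FinitePlace L) := B.image FinitePlace.mk with hs
  have h2 : ∏ w ∈ B, max (FinitePlace.mk w x) 1 =
      ∏ᶠ v : FinitePlace L, if v ∈ s then max (v x) 1 else 1 := by
    rw [finprod_eq_prod_of_mulSupport_subset (s := s)]
    · rw [Finset.prod_congr rfl fun v hv => if_pos hv, hs, Finset.prod_image fun a _ b _ h =>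
        FinitePlace.mk_eq_iff.1 h]
    · intro v hv
      rw [Function.mem_mulSupport] at hv
      by_contra h
      exact hv (if_neg h)
  have hfin : Function.HasFiniteMulSupport
      fun v : FinitePlace L => if v ∈ s then max (v x) 1 else (1 : ℝ) := by
    refine Set.Finite.subset s.finite_toSet ?_
    intro v hv
    rw [Function.mem_mulSupport] at hv
    by_contra h
    exact hv (if_neg h)
  rw [h2]
  have h3 : (∏ᶠ v : FinitePlace L, if v ∈ s then max (v x) 1 else (1 : ℝ)) ≤
      ∏ᶠ v : FinitePlace L, max (v x) 1 := by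
    refine finprod_le_finprod hfin (fun v => ?_) (hfs x) fun v => ?_
    · split_ifs <;> positivity
    · change (if v ∈ s then max (v x) 1 else (1 : ℝ)) ≤ max (v x) 1
      split_ifs
      · exact le_rfl
      · exact le_max_right _ _
  refine h3.trans (le_mul_of_one_le_left (finprod_nonneg fun v => by positivity) h1)

/-- a nonzero element which is very close to zero has a large height -/
theorem ht_floor (B : Finset (HeightOneSpectrum (𝓞 L))) {y : L} (hy : y ≠ 0) (J : ℕ)
    (h : ∀ w ∈ B, w.valuation L y ≤ WithZero.exp (-(J : ℤ))) :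
    (∏ w ∈ B, Nr w) ^ J ≤ mulHeight₁ y := by
  rw [← mulHeight₁_inv, ← Finset.prod_pow]
  refine le_trans (Finset.prod_le_prod (fun w _ => by have := Nr_pos w; positivity) ?_)
    (prod_le_ht y⁻¹ B)
  intro w hw
  refine le_max_of_le_left ?_
  have h1 := (fp_le_zpow w y (-(J : ℤ))).2 (h w hw)
  have h2 : 0 < FinitePlace.mk w y := FinitePlace.pos_iff.2 hy
  have h3 := Nr_pos w
  rw [map_inv₀]
  rw [zpow_neg, zpow_natCast] at h1
  exact (le_inv_comm₀ h2 (by positivity)).1 h1

/-- the poles are bounded by the height -/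
theorem ht_pole {x : L} {k : ℕ} (h : mulHeight₁ x ≤ 2 ^ k) (w : HeightOneSpectrum (𝓞 L)) :
    w.valuation L x ≤ WithZero.exp (k : ℤ) := by
  rw [← fp_le_zpow, zpow_natCast]
  have h1 := prod_le_ht x {w}
  rw [Finset.prod_singleton] at h1
  calc FinitePlace.mk w x ≤ max (FinitePlace.mk w x) 1 := le_max_left _ _
    _ ≤ 2 ^ k := h1.trans h
    _ ≤ Nr w ^ k := pow_le_pow_left₀ (by norm_num) (two_le_Nr w) _

theorem val_int_le_one (w : HeightOneSpectrum (𝓞 L)) (k : ℤ) : w.valuation L (k : L) ≤ 1 := by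
  have h3 : algebraMap (𝓞 L) L (k : 𝓞 L) = (k : L) := map_intCast _ k
  rw [← h3]
  exact w.valuation_le_one (K := L) (k : 𝓞 L)

/-- the height of an integer -/
theorem ht_int (k : ℤ) {X : ℝ} (hX : 1 ≤ X) (hk : |(k : ℝ)| ≤ X) :
    mulHeight₁ (k : L) ≤ X ^ (∑ v : InfinitePlace L, v.mult) := by
  rw [NumberField.mulHeight₁_eq]
  have h1 : ∏ᶠ v : FinitePlace L, max (v (k : L)) 1 = 1 := by
    refine finprod_eq_one_of_forall_eq_one fun v => ?_
    obtain ⟨w, rfl⟩ : ∃ w, FinitePlace.mk w = v := ⟨_, FinitePlace.mk_maximalIdeal v⟩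
    exact max_eq_right ((fp_le_one_iff w _).2 (val_int_le_one w k))
  rw [h1, mul_one, ← Finset.prod_pow_eq_pow_sum]
  refine Finset.prod_le_prod (fun v _ => by positivity) fun v _ => ?_
  refine pow_le_pow_left₀ (by positivity) (max_le ?_ hX) _
  rw [← InfinitePlace.norm_embedding_eq, map_intCast, Complex.norm_intCast]
  exact hk

end Pool.Agent.ZS
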