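import Mathlib

/-!
# The choice of the constant `c₀`
-/

set_option autoImplicit false

namespace Pool.Agent.ZS

theorem pow_le_two (n M : ℕ) : (M + 1) ^ n ≤ n.factorial * 2 ^ (M + n) := by
  have h1 : (M + 1) ^ n ≤ (M + 1).ascFactorial n := Nat.pow_succ_le_ascFactorial (M + 1) n
  have h2 : (M + 1).ascFactorial n = n.factorial * (M + n).choose n :=
    Nat.ascFactorial_eq_factorial_mul_choose M n
  have h3 : (M + n).choose n ≤ 2 ^ (M + n) := Nat.choose_le_two_pow _ _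
  calc (M + 1) ^ n ≤ n.factorial * (M + n).choose n := by rw [← h2]; exact h1
    _ ≤ _ := Nat.mul_le_mul_left _ h3

/-- polynomial growth is slower than the powers of two -/
theorem exists_c (A : ℝ) (n B : ℕ) : ∃ c : ℕ, ∀ M : ℕ, A * ((B : ℝ) * (M + 1)) ^ n < 2 ^ (M + c) := by
  obtain ⟨c, hc⟩ := pow_unbounded_of_one_lt (|A| * (B : ℝ) ^ n * (n.factorial * 2 ^ n)) (one_lt_two)
  refine ⟨c, fun M => ?_⟩
  have h1 : ((M : ℝ) + 1) ^ n ≤ n.factorial * 2 ^ (M + n) := by exact_mod_cast pow_le_two n M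
  calc A * ((B : ℝ) * (M + 1)) ^ n ≤ |A| * ((B : ℝ) * (M + 1)) ^ n :=
        mul_le_mul_of_nonneg_right (le_abs_self A) (by positivity)
    _ = |A| * (B : ℝ) ^ n * ((M : ℝ) + 1) ^ n := by rw [mul_pow]; ring
    _ ≤ |A| * (B : ℝ) ^ n * (n.factorial * 2 ^ (M + n)) :=
        mul_le_mul_of_nonneg_left h1 (by positivity)
    _ = |A| * (B : ℝ) ^ n * (n.factorial * 2 ^ n) * 2 ^ M := by rw [pow_add]; ring
    _ < 2 ^ c * 2 ^ M := mul_lt_mul_of_pos_right hc (by positivity)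
    _ = 2 ^ (M + c) := by rw [← pow_add, add_comm]

end Pool.Agent.ZS
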