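import Pool.Agent.Lib.ZS.Abv

/-!
# The height bound from the form `D(x) = ∏ ((x - β i)² + g)`
-/

set_option autoImplicit false

namespace Pool.Agent.ZS

open NumberField IsDedekindDomain Height

variable {L : Type} [Field L] [NumberField L]

/-- the linking form -/
noncomputable def Dv (q : ℕ) (β : ℕ → L) (g : ℕ) (x : L) : L :=
  ∏ i ∈ Finset.range q, ((x - β i) ^ 2 + (g : L))

theorem hfs (x : L) : Function.HasFiniteMulSupport fun v : FinitePlace L => max (v x) 1 := by
  by_cases hx : x = 0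
  · subst hx
    simp only [map_zero]
    have : (fun _ : FinitePlace L => max (0 : ℝ) 1) = 1 := by
      funext v
      simp
    rw [this]
    exact Function.hasFiniteMulSupport_fun_one
  · have := FinitePlace.hasFiniteMulSupport hx
    fun_prop

theorem real_ineq (x b B g : ℝ) (hb : |b| ≤ B) (hg : 1 ≤ g) :
    max |x| 1 ^ 2 ≤ (3 + 2 * B ^ 2) * ((x - b) ^ 2 + g) := by
  have h0 : b ^ 2 ≤ B ^ 2 := sq_le_sq' (by have := neg_abs_le b; linarith) ((le_abs_self b).trans hb)
  have h1 : 0 ≤ (x - b) ^ 2 := sq_nonneg _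
  have h2 : x ^ 2 ≤ 2 * (x - b) ^ 2 + 2 * b ^ 2 := by nlinarith [sq_nonneg (x - 2 * b)]
  have h3 : max |x| 1 ^ 2 = max (x ^ 2) 1 := by
    rcases le_total |x| 1 with h | h
    · rw [max_eq_right h, max_eq_right, one_pow]
      rwa [sq_le_one_iff_abs_le_one]
    · rw [max_eq_left h, max_eq_left, sq_abs]
      rwa [one_le_sq_iff_one_le_abs]
  rw [h3]
  have hB : 0 ≤ B ^ 2 := sq_nonneg _
  have h4 : 0 ≤ (x - b) ^ 2 + g := by linarith
  refine max_le ?_ ?_
  · nlinarith [mul_nonneg hB h4, mul_nonneg hB h1]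
  · nlinarith [mul_nonneg hB h4]

theorem cpx_ineq (φ : L →+* ℂ) (x b : L) (g : ℕ) (B : ℝ) (hx : (φ x).im = 0) (hb : (φ b).im = 0)
    (hB : ‖φ b‖ ≤ B) (hg : 0 < g) :
    max ‖φ x‖ 1 ^ 2 ≤ (3 + 2 * B ^ 2) * ‖φ ((x - b) ^ 2 + (g : L))‖ := by
  have e1 : φ x = ((φ x).re : ℂ) := Complex.ext rfl (by simp [hx])
  have e2 : φ b = ((φ b).re : ℂ) := Complex.ext rfl (by simp [hb])
  have e3 : φ ((x - b) ^ 2 + (g : L)) = ((((φ x).re - (φ b).re) ^ 2 + g : ℝ) : ℂ) := by
    rw [map_add, map_pow, map_sub, map_natCast]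
    conv_lhs => rw [e1, e2]
    push_cast
    rfl
  have hg' : (1 : ℝ) ≤ g := by exact_mod_cast hg
  rw [e2, Complex.norm_real, Real.norm_eq_abs] at hB
  have h := real_ineq (φ x).re (φ b).re B g hB hg'
  rw [e3, Complex.norm_real, Real.norm_eq_abs, abs_of_nonneg (by positivity)]
  conv_lhs => rw [e1, Complex.norm_real, Real.norm_eq_abs]
  exact h

theorem val_sub_of_lt {w : HeightOneSpectrum (𝓞 L)} {x b : L} (hb : w.valuation L b ≤ 1)
    (hx : 1 < w.valuation L x) : w.valuation L (x - b) = w.valuation L x :=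
  Valuation.map_sub_eq_of_lt_left _ (lt_of_le_of_lt hb hx)

theorem val_term {w : HeightOneSpectrum (𝓞 L)} {x b : L} (g : ℕ) (hb : w.valuation L b ≤ 1)
    (hx : 1 < w.valuation L x) :
    w.valuation L ((x - b) ^ 2 + (g : L)) = w.valuation L x ^ 2 := by
  have h1 : w.valuation L ((x - b) ^ 2) = w.valuation L x ^ 2 := by
    rw [map_pow, val_sub_of_lt hb hx]
  have h2 : w.valuation L (g : L) ≤ 1 := by
    have h3 : algebraMap (𝓞 L) L (g : 𝓞 L) = (g : L) := map_natCast _ g
    rw [← h3]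
    exact w.valuation_le_one (K := L) (g : 𝓞 L)
  rw [Valuation.map_add_eq_of_lt_left]
  · exact h1
  · rw [h1]
    exact lt_of_le_of_lt h2 (one_lt_pow₀ hx (by norm_num))

theorem val_Dv {w : HeightOneSpectrum (𝓞 L)} {x : L} (q : ℕ) (β : ℕ → L) (g : ℕ)
    (hb : ∀ i, w.valuation L (β i) ≤ 1) (hx : 1 < w.valuation L x) :
    w.valuation L (Dv q β g x) = w.valuation L x ^ (2 * q) := by
  unfold Dv
  rw [map_prod, Finset.prod_congr rfl fun i _ => val_term g (hb i) hx, Finset.prod_const,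
    Finset.card_range, ← pow_mul]

theorem Dv_ne (q : ℕ) (β : ℕ → L) (g : ℕ) (hg : 0 < g) (φ : L →+* ℂ) (hβ : ∀ i, (φ (β i)).im = 0)
    {x : L} (hx : (φ x).im = 0) : Dv q β g x ≠ 0 := by
  unfold Dv
  rw [Finset.prod_ne_zero_iff]
  intro i _ h0
  have h := cpx_ineq φ x (β i) g ‖φ (β i)‖ hx (hβ i) le_rfl hg
  rw [h0, map_zero, norm_zero, mul_zero] at h
  have h2 : (1 : ℝ) ≤ max ‖φ x‖ 1 := le_max_right _ _
  nlinarith

/-- **The height bound.** -/
theorem ht_bound (q : ℕ) (β : ℕ → L) (g : ℕ) (Bad : Set (HeightOneSpectrum (𝓞 L)))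
    (B : Finset (HeightOneSpectrum (𝓞 L))) (hq : 0 < q) (hg : 0 < g)
    (hβ : ∀ i, IsIntegral ℤ (β i)) (hβr : ∀ (φ : L →+* ℂ) i, (φ (β i)).im = 0) :
    ∃ C : ℝ, 0 < C ∧ ∀ (x S : L) (M : ℕ), (∀ φ : L →+* ℂ, (φ x).im = 0) →
      (∀ w ∈ Bad, w.valuation L x ≤ 1 → ∀ i < q, w.valuation L ((x - β i) ^ 2 + (g : L)) = 1) →
      (∀ φ : L →+* ℂ, ‖φ S‖ ≤ 1) → S ≠ 1 → (∀ w ∉ B, w.valuation L S ≤ 1) →
      (∀ w ∈ B, w.valuation L S ≤ WithZero.exp (M : ℤ)) →
      (∀ w ∉ Bad, w.valuation L (S - 1) ≤ w.valuation L (Dv q β g x)) →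
      mulHeight₁ x ≤ C * (∏ w ∈ B, Nr w) ^ M := by
  classical
  -- a bound for the conjugates of the `β i`
  obtain ⟨b0, hb0⟩ : ∃ b0 : ℝ, ∀ (v : InfinitePlace L) (i : ℕ), i < q → v (β i) ≤ b0 := by
    refine ⟨∑ v : InfinitePlace L, ∑ i ∈ Finset.range q, v (β i), fun v i hi => ?_⟩
    refine le_trans ?_ (Finset.single_le_sum (f := fun v : InfinitePlace L =>
      ∑ i ∈ Finset.range q, v (β i)) (fun v _ => Finset.sum_nonneg fun i _ => apply_nonneg v _)
      (Finset.mem_univ v))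
    exact Finset.single_le_sum (f := fun i => v (β i)) (fun i _ => apply_nonneg v _)
      (Finset.mem_range.2 hi)
  set A : ℝ := 3 + 2 * b0 ^ 2 with hA
  have hA1 : 1 ≤ A := by nlinarith [sq_nonneg b0]
  set n : ℕ := ∑ v : InfinitePlace L, v.mult with hn
  refine ⟨A ^ (q * n) * 2 ^ n, by positivity, ?_⟩
  intro x S M hx hbad hS hS1 hSB hSB' hdiv
  have hβv : ∀ (w : HeightOneSpectrum (𝓞 L)) i, w.valuation L (β i) ≤ 1 := by
    intro w i
    exact w.valuation_le_one (⟨β i, hβ i⟩ : 𝓞 L)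
  obtain ⟨φ0⟩ : Nonempty (L →+* ℂ) := inferInstance
  have hD0 : Dv q β g x ≠ 0 := Dv_ne q β g hg φ0 (hβr φ0) (hx φ0)
  have hS0 : S - 1 ≠ 0 := sub_ne_zero.2 hS1
  have hS0' : (S - 1)⁻¹ ≠ 0 := inv_ne_zero hS0
  -- the infinite places
  have hinf : ∀ v : InfinitePlace L, max (v x) 1 ^ (2 * q) ≤ A ^ q * v (Dv q β g x) := by
    intro v
    have h1 : ∀ i ∈ Finset.range q, max (v x) 1 ^ 2 ≤ A * v ((x - β i) ^ 2 + (g : L)) := by
      intro i hi
      have h2 := cpx_ineq v.embedding x (β i) g b0 (hx _) (hβr _ i)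
        (by rw [InfinitePlace.norm_embedding_eq]; exact hb0 v i (Finset.mem_range.1 hi)) hg
      rwa [InfinitePlace.norm_embedding_eq, InfinitePlace.norm_embedding_eq] at h2
    calc max (v x) 1 ^ (2 * q) = ∏ i ∈ Finset.range q, max (v x) 1 ^ 2 := by
          rw [Finset.prod_const, Finset.card_range, pow_mul]
      _ ≤ ∏ i ∈ Finset.range q, (A * v ((x - β i) ^ 2 + (g : L))) :=
          Finset.prod_le_prod (fun i _ => by positivity) h1
      _ = A ^ q * v (Dv q β g x) := by
          rw [Finset.prod_mul_distrib, Finset.prod_const, Finset.card_range, Dv, map_prod]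
  -- the finite places
  have hfin : ∀ v : FinitePlace L, max (v x) 1 ^ (2 * q) ≤
      v (Dv q β g x) * max (v ((S - 1)⁻¹)) 1 := by
    refine fp_forall fun w => ?_
    have hDpos : 0 ≤ FinitePlace.mk w (Dv q β g x) := fp_nonneg _ _
    rcases le_or_gt (w.valuation L x) 1 with h1 | h1
    · rw [max_eq_right ((fp_le_one_iff w x).2 h1), one_pow]
      by_cases hw : w ∈ Bad
      · have h2 : FinitePlace.mk w (Dv q β g x) = 1 := by
          rw [fp_eq_one_iff, Dv, map_prod]
          exact Finset.prod_eq_one fun i hi => hbad w hw h1 i (Finset.mem_range.1 hi)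
        rw [h2, one_mul]
        exact le_max_right _ _
      · have h2 := (fp_le_iff w _ _).2 (hdiv w hw)
        have h3 : 0 < FinitePlace.mk w (S - 1) := FinitePlace.pos_iff.2 hS0
        rw [map_inv₀]
        calc (1 : ℝ) = FinitePlace.mk w (S - 1) * (FinitePlace.mk w (S - 1))⁻¹ :=
              (mul_inv_cancel₀ h3.ne').symm
          _ ≤ FinitePlace.mk w (Dv q β g x) * (FinitePlace.mk w (S - 1))⁻¹ :=
              mul_le_mul_of_nonneg_right h2 (inv_nonneg.2 h3.le)
          _ ≤ _ := mul_le_mul_of_nonneg_left (le_max_left _ _) hDpos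
    · have h2 : 1 ≤ FinitePlace.mk w x := by
        have := (fp_le_one_iff w x).not.2 (not_le.2 h1)
        linarith
      have h3 : FinitePlace.mk w (Dv q β g x) = FinitePlace.mk w x ^ (2 * q) := by
        rw [fp_eq, fp_eq, val_Dv q β g (hβv w) h1, map_pow, NNReal.coe_pow]
      rw [max_eq_left h2, h3]
      exact le_mul_of_one_le_right (by positivity) (le_max_right _ _)
  -- product over the places
  have hf1 : Function.HasFiniteMulSupport fun v : FinitePlace L => max (v x) 1 ^ (2 * q) := by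
    have := hfs x
    exact this.fun_comp (g := fun y : ℝ => y ^ (2 * q)) (one_pow _)
  have hf2 := FinitePlace.hasFiniteMulSupport hD0
  have hf3 := hfs ((S - 1)⁻¹)
  have e1 : mulHeight₁ x ^ (2 * q) =
      (∏ v : InfinitePlace L, (max (v x) 1 ^ (2 * q)) ^ v.mult) *
        ∏ᶠ v : FinitePlace L, max (v x) 1 ^ (2 * q) := by
    rw [NumberField.mulHeight₁_eq, mul_pow, ← Finset.prod_pow, finprod_pow (hfs x)]
    congr 1
    refine Finset.prod_congr rfl fun v _ => ?_
    rw [← pow_mul, ← pow_mul, mul_comm]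
  have e2 : ∏ v : InfinitePlace L, (max (v x) 1 ^ (2 * q)) ^ v.mult ≤
      A ^ (q * n) * ∏ v : InfinitePlace L, v (Dv q β g x) ^ v.mult := by
    calc _ ≤ ∏ v : InfinitePlace L, (A ^ q * v (Dv q β g x)) ^ v.mult :=
          Finset.prod_le_prod (fun v _ => by positivity) fun v _ =>
            pow_le_pow_left₀ (by positivity) (hinf v) _
      _ = _ := by
          simp_rw [mul_pow]
          rw [Finset.prod_mul_distrib, Finset.prod_pow_eq_pow_sum, ← hn, ← pow_mul]
  have e3 : ∏ᶠ v : FinitePlace L, max (v x) 1 ^ (2 * q) ≤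
      (∏ᶠ v : FinitePlace L, v (Dv q β g x)) * ∏ᶠ v : FinitePlace L, max (v ((S - 1)⁻¹)) 1 := by
    rw [← finprod_mul_distrib hf2 hf3]
    exact finprod_le_finprod hf1 (fun v => by positivity) (hf2.mul hf3) hfin
  have e4 := NumberField.prod_abs_eq_one hD0
  have e5 : ∏ᶠ v : FinitePlace L, max (v ((S - 1)⁻¹)) 1 ≤ mulHeight₁ (S - 1) := by
    rw [← mulHeight₁_inv, NumberField.mulHeight₁_eq]
    refine le_mul_of_one_le_left (finprod_nonneg fun v => by positivity) ?_
    calc (1 : ℝ) = ∏ _v : InfinitePlace L, (1 : ℝ) := by rw [Finset.prod_const_one]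
      _ ≤ _ := Finset.prod_le_prod (fun _ _ => zero_le_one) fun v _ =>
          one_le_pow₀ (le_max_right _ _)
  -- the height of `S - 1`
  have e6 : mulHeight₁ (S - 1) ≤ 2 ^ n * (∏ w ∈ B, Nr w) ^ M := by
    rw [NumberField.mulHeight₁_eq]
    refine mul_le_mul ?_ ?_ (finprod_nonneg fun v => by positivity) (by positivity)
    · calc _ ≤ ∏ v : InfinitePlace L, (2 : ℝ) ^ v.mult := by
            refine Finset.prod_le_prod (fun v _ => by positivity) fun v _ => ?_
            refine pow_le_pow_left₀ (by positivity) (max_le ?_ (by norm_num)) _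
            have h2 := hS v.embedding
            rw [← InfinitePlace.norm_embedding_eq, map_sub, map_one]
            refine (norm_sub_le _ _).trans ?_
            rw [norm_one]
            linarith
        _ = 2 ^ n := by rw [Finset.prod_pow_eq_pow_sum, ← hn]
    · have hsup : Function.mulSupport (fun v : FinitePlace L => max (v (S - 1)) 1) ⊆
          (B.image FinitePlace.mk : Finset (FinitePlace L)) := by
        intro v hv
        rw [Function.mem_mulSupport] at hv
        by_contra hvB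
        apply hv
        obtain ⟨w, rfl⟩ : ∃ w, FinitePlace.mk w = v := ⟨_, FinitePlace.mk_maximalIdeal v⟩
        have hw : w ∉ B := by
          intro hw
          exact hvB (Finset.mem_coe.2 (Finset.mem_image_of_mem _ hw))
        rw [max_eq_right]
        rw [fp_le_one_iff]
        exact (Valuation.map_sub _ _ _).trans (max_le (hSB w hw) (by rw [map_one]))
      rw [finprod_eq_prod_of_mulSupport_subset _ hsup, Finset.prod_image fun a _ b _ h =>
        FinitePlace.mk_eq_iff.1 h, ← Finset.prod_pow]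
      refine Finset.prod_le_prod (fun w _ => by positivity) fun w hw => ?_
      refine max_le ?_ (one_le_pow₀ (one_le_Nr w))
      rw [← zpow_natCast, fp_le_zpow]
      refine (Valuation.map_sub _ _ _).trans (max_le (hSB' w hw) ?_)
      rw [map_one, ← WithZero.exp_zero, WithZero.exp_le_exp]
      positivity
  have hH1 := one_le_mulHeight₁ x
  have hPnn : 0 ≤ ∏ v : InfinitePlace L, v (Dv q β g x) ^ v.mult := by positivity
  have hFnn : 0 ≤ ∏ᶠ v : FinitePlace L, v (Dv q β g x) := finprod_nonneg fun v => by positivity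
  have hMnn : 0 ≤ ∏ᶠ v : FinitePlace L, max (v ((S - 1)⁻¹)) 1 :=
    finprod_nonneg fun v => by positivity
  calc mulHeight₁ x ≤ mulHeight₁ x ^ (2 * q) := le_self_pow₀ hH1 (by omega)
    _ ≤ (A ^ (q * n) * ∏ v : InfinitePlace L, v (Dv q β g x) ^ v.mult) *
        ((∏ᶠ v : FinitePlace L, v (Dv q β g x)) *
          ∏ᶠ v : FinitePlace L, max (v ((S - 1)⁻¹)) 1) := by
        rw [e1]
        exact mul_le_mul e2 e3 (finprod_nonneg fun v => by positivity) (by positivity)
    _ = A ^ (q * n) * ((∏ v : InfinitePlace L, v (Dv q β g x) ^ v.mult) *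
        (∏ᶠ v : FinitePlace L, v (Dv q β g x))) *
          ∏ᶠ v : FinitePlace L, max (v ((S - 1)⁻¹)) 1 := by ring
    _ = A ^ (q * n) * ∏ᶠ v : FinitePlace L, max (v ((S - 1)⁻¹)) 1 := by rw [e4, mul_one]
    _ ≤ A ^ (q * n) * (2 ^ n * (∏ w ∈ B, Nr w) ^ M) :=
        mul_le_mul_of_nonneg_left (e5.trans e6) (by positivity)
    _ = _ := by ring

end Pool.Agent.ZS
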