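import Mathlib

/-!
# Finite places and valuations
-/

set_option autoImplicit false

namespace Pool.Agent.ZS

open NumberField IsDedekindDomain WithZeroMulInt

variable {L : Type} [Field L] [NumberField L]

/-- the norm of a prime, a real number -/
noncomputable def Nr (w : HeightOneSpectrum (𝓞 L)) : ℝ := (Ideal.absNorm w.asIdeal : ℝ)

theorem two_le_Nr (w : HeightOneSpectrum (𝓞 L)) : (2 : ℝ) ≤ Nr w := by
  have h : 1 < Ideal.absNorm w.asIdeal := HeightOneSpectrum.one_lt_absNorm w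
  unfold Nr
  exact_mod_cast h

theorem Nr_pos (w : HeightOneSpectrum (𝓞 L)) : 0 < Nr w := by have := two_le_Nr w; linarith

theorem one_le_Nr (w : HeightOneSpectrum (𝓞 L)) : 1 ≤ Nr w := by have := two_le_Nr w; linarith

theorem fp_eq (w : HeightOneSpectrum (𝓞 L)) (x : L) :
    FinitePlace.mk w x =
      ((toNNReal (HeightOneSpectrum.absNorm_ne_zero w) (w.valuation L x) : NNReal) : ℝ) :=
  FinitePlace.norm_embedding' w x

theorem fp_le_iff (w : HeightOneSpectrum (𝓞 L)) (x y : L) :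
    FinitePlace.mk w x ≤ FinitePlace.mk w y ↔ w.valuation L x ≤ w.valuation L y := by
  rw [fp_eq, fp_eq, NNReal.coe_le_coe]
  exact (toNNReal_strictMono (HeightOneSpectrum.one_lt_absNorm_nnreal w)).le_iff_le

theorem fp_le_one_iff (w : HeightOneSpectrum (𝓞 L)) (x : L) :
    FinitePlace.mk w x ≤ 1 ↔ w.valuation L x ≤ 1 := by
  have h := fp_le_iff w x 1
  rwa [map_one, map_one] at h

theorem fp_eq_one_iff (w : HeightOneSpectrum (𝓞 L)) (x : L) :
    FinitePlace.mk w x = 1 ↔ w.valuation L x = 1 := by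
  have h1 := fp_le_iff w x 1
  have h2 := fp_le_iff w 1 x
  rw [map_one, map_one] at h1 h2
  rw [le_antisymm_iff, le_antisymm_iff, h1, h2]

theorem toNN_exp (w : HeightOneSpectrum (𝓞 L)) (n : ℤ) :
    ((toNNReal (HeightOneSpectrum.absNorm_ne_zero w) (WithZero.exp n) : NNReal) : ℝ) = Nr w ^ n := by
  rw [toNNReal_neg_apply _ (WithZero.exp_ne_zero), NNReal.coe_zpow, NNReal.coe_natCast]
  rfl

theorem fp_le_zpow (w : HeightOneSpectrum (𝓞 L)) (x : L) (n : ℤ) :
    FinitePlace.mk w x ≤ Nr w ^ n ↔ w.valuation L x ≤ WithZero.exp n := by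
  rw [fp_eq, ← toNN_exp, NNReal.coe_le_coe]
  exact (toNNReal_strictMono (HeightOneSpectrum.one_lt_absNorm_nnreal w)).le_iff_le

theorem fp_nonneg (w : HeightOneSpectrum (𝓞 L)) (x : L) : 0 ≤ FinitePlace.mk w x := by
  rw [fp_eq]
  exact NNReal.coe_nonneg _

theorem fp_forall {P : FinitePlace L → Prop} (h : ∀ w : HeightOneSpectrum (𝓞 L), P (FinitePlace.mk w))
    (v : FinitePlace L) : P v := by
  rw [← FinitePlace.mk_maximalIdeal v]
  exact h _

end Pool.Agent.ZS
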